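import Pool.Agent.Q14.OOA

/-!
MP_b8aaf5_co: the position with seven piles of size 5 and five piles of size 6 is an `N`-position
of the one-or-all token game, although `7 ∈ S_12` and all piles are larger than `⌈12/3⌉ = 4`.
-/

namespace Pool.Agent.Results.MP_b8aaf5_co.TwelvePiles

open Pool.Agent.Q14.OOA

/-- The set `S_k` of the problem: the even numbers in `[0, k]` if `k` is odd; for even `k` the even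
`j < k/2` and the odd `j > k/2` (`j ≤ k`). -/
def S (k : ℕ) : Set ℕ :=
  {j | j ≤ k ∧ if k % 2 = 1 then j % 2 = 0 else (j % 2 = 0 ∧ 2 * j < k) ∨ (j % 2 = 1 ∧ k < 2 * j)}

/-- The statement of Q1: for every `k ≥ 3` and every position with exactly `k` piles, each
containing more than `⌈k/3⌉` tokens, the position is a `P`-position if and only if the number of
odd piles lies in `S_k`. -/
def Statement : Prop :=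
  ∀ k : ℕ, 3 ≤ k → ∀ p : Multiset ℕ, IsPosition p → Multiset.card p = k →
    (∀ a ∈ p, ⌈(k : ℚ) / 3⌉₊ < a) → (PPos p ↔ Multiset.card (p.filter (fun a => a % 2 = 1)) ∈ S k)

/-- A list of `P`-positions (numbers of piles of sizes 1, ..., 6), closed in the sense that every option has an
answer in the list. -/
def W : List (List ℕ) := [
  [0,0,0,7,5,0],
  [0,0,8,4,0,0],
  [0,1,6,5,0,0],
  [0,2,6,4,0,0],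
  [1,1,5,5,0,0],
  [0,2,4,5,0,0],
  [0,4,4,4,0,0],
  [2,0,6,4,0,0],
  [0,3,4,4,0,0],
  [0,6,2,4,0,0],
  [1,1,5,4,0,0],
  [0,2,4,4,0,0],
  [0,4,4,3,0,0],
  [0,5,2,4,0,0],
  [0,8,0,4,0,0],
  [1,3,3,4,0,0],
  [2,0,6,3,0,0],
  [0,0,6,3,0,0],
  [0,4,2,4,0,0],
  [0,6,2,3,0,0],
  [2,0,4,4,0,0],
  [2,2,4,3,0,0],
  [2,6,0,4,0,0],
  [0,2,4,3,0,0],
  [0,6,0,4,0,0],
  [0,8,0,3,0,0],
  [1,1,3,4,0,0],
  [2,2,2,4,0,0],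
  [2,4,2,3,0,0],
  [2,5,0,4,0,0],
  [4,0,4,3,0,0],
  [0,9,3,0,0,0],
  [0,2,2,4,0,0],
  [0,4,2,3,0,0],
  [2,0,4,3,0,0],
  [2,1,2,4,0,0],
  [2,4,0,4,0,0],
  [2,6,0,3,0,0],
  [4,2,2,3,0,0],
  [0,5,5,0,0,0],
  [2,7,3,0,0,0],
  [0,0,4,3,0,0],
  [0,1,2,4,0,0],
  [0,4,0,4,0,0],
  [0,5,2,2,0,0],
  [0,6,0,3,0,0],
  [2,0,2,4,0,0],
  [2,2,2,3,0,0],
  [2,5,0,3,0,0],
  [3,3,1,3,0,0],
  [6,0,2,3,0,0],
  [0,7,3,0,0,0],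
  [4,5,3,0,0,0],
  [0,2,2,3,0,0],
  [0,5,4,0,0,0],
  [1,1,1,4,0,0],
  [1,3,1,3,0,0],
  [1,5,1,2,0,0],
  [2,3,2,2,0,0],
  [2,4,0,3,0,0],
  [4,0,2,3,0,0],
  [6,2,0,3,0,0],
  [2,5,3,0,0,0],
  [6,3,3,0,0,0],
  [0,2,0,4,0,0],
  [0,3,2,2,0,0],
  [0,4,0,3,0,0],
  [0,6,0,2,0,0],
  [0,7,2,0,0,0],
  [1,6,1,1,0,0],
  [2,0,2,3,0,0],
  [2,3,4,0,0,0],
  [3,3,1,2,0,0],
  [4,1,2,2,0,0],
  [4,5,2,0,0,0],
  [6,1,0,3,0,0],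
  [0,5,3,0,0,0],
  [4,3,3,0,0,0],
  [8,1,3,0,0,0],
  [0,3,4,0,0,0],
  [0,7,0,1,0,0],
  [1,1,1,3,0,0],
  [1,3,1,2,0,0],
  [2,0,0,4,0,0],
  [2,1,2,2,0,0],
  [2,4,0,2,0,0],
  [2,5,2,0,0,0],
  [3,4,1,1,0,0],
  [5,1,1,2,0,0],
  [6,0,0,3,0,0],
  [6,3,2,0,0,0],
  [2,3,3,0,0,0],
  [6,1,3,0,0,0],
  [0,0,0,4,0,0],
  [0,1,2,2,0,0],
  [0,2,0,3,0,0],
  [0,4,0,2,0,0],
  [0,5,2,0,0,0],
  [0,6,0,1,0,0],
  [0,8,0,0,0,0],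
  [2,2,2,1,0,0],
  [2,3,0,2,0,0],
  [2,5,0,1,0,0],
  [3,1,1,2,0,0],
  [4,0,0,3,0,0],
  [4,3,2,0,0,0],
  [6,0,2,1,0,0],
  [6,1,0,2,0,0],
  [6,5,0,0,0,0],
  [8,1,2,0,0,0],
  [0,3,3,0,0,0],
  [4,1,3,0,0,0],
  [0,1,4,0,0,0],
  [0,2,2,1,0,0],
  [0,3,0,2,0,0],
  [0,5,0,1,0,0],
  [0,7,0,0,0,0],
  [1,1,1,2,0,0],
  [2,0,0,3,0,0],
  [2,3,2,0,0,0],
  [2,4,0,1,0,0],
  [2,6,0,0,0,0],
  [3,2,1,1,0,0],
  [4,0,2,1,0,0],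
  [4,1,0,2,0,0],
  [4,5,0,0,0,0],
  [6,1,2,0,0,0],
  [7,0,1,1,0,0],
  [8,3,0,0,0,0],
  [10,2,0,0,0,0],
  [2,1,3,0,0,0],
  [0,0,0,3,0,0],
  [0,2,0,2,0,0],
  [0,3,2,0,0,0],
  [0,4,0,1,0,0],
  [0,6,0,0,0,0],
  [1,2,1,1,0,0],
  [2,0,2,1,0,0],
  [4,0,0,2,0,0],
  [4,1,2,0,0,0],
  [4,2,0,1,0,0],
  [4,4,0,0,0,0],
  [5,0,1,1,0,0],
  [6,1,0,1,0,0],
  [8,2,0,0,0,0],
  [10,1,0,0,0,0],
  [0,1,3,0,0,0],
  [0,0,2,1,0,0],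
  [0,3,0,1,0,0],
  [1,3,1,0,0,0],
  [2,0,0,2,0,0],
  [2,1,2,0,0,0],
  [2,4,0,0,0,0],
  [4,1,0,1,0,0],
  [6,0,0,1,0,0],
  [6,2,0,0,0,0],
  [8,1,0,0,0,0],
  [0,1,2,0,0,0],
  [0,2,0,1,0,0],
  [0,4,0,0,0,0],
  [1,0,1,1,0,0],
  [2,3,0,0,0,0],
  [3,1,1,0,0,0],
  [4,0,0,1,0,0],
  [4,2,0,0,0,0],
  [6,1,0,0,0,0],
  [0,1,0,1,0,0],
  [0,3,0,0,0,0],
  [2,0,0,1,0,0],
  [2,2,0,0,0,0],
  [4,1,0,0,0,0],
  [0,0,0,1,0,0],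
  [0,2,0,0,0,0],
  [2,1,0,0,0,0],
  [0,1,0,0,0,0],
  [0,0,0,0,0,0]]

theorem check_W : check W = true := by decide +kernel

/-- seven piles of size 4 and five piles of size 5 form a `P`-position -/
theorem ppos4 : PPos (ms [0, 0, 0, 7, 5, 0] 1) :=
  ppos_of_check check_W _ _ rfl (by decide +kernel)

/-- seven piles of size 5 and five piles of size 6 form an `N`-position -/
theorem npos5 : NPos (ms [0, 0, 0, 0, 7, 5] 1) :=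
  NPos.mk _ _ (move_of_mem (c := [0, 0, 0, 0, 7, 5]) (d := [0, 0, 0, 7, 5, 0]) (by decide +kernel))
    ppos4

/-- The statement of Q1 is false. -/
theorem result : ¬ Statement := by
  intro h
  have h1 := (h 12 (by norm_num) (ms [0, 0, 0, 0, 7, 5] 1) (pos_ms _) (by decide +kernel) ?_).mpr ?_
  · exact not_both _ _ rfl (pos_ms _) h1 npos5
  · have hc : ⌈((12 : ℕ) : ℚ) / 3⌉₊ = 4 := by norm_num
    rw [hc]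
    decide +kernel
  · have hc : Multiset.card ((ms [0, 0, 0, 0, 7, 5] 1).filter (fun a => a % 2 = 1)) = 7 := by
      decide +kernel
    rw [hc]
    simp [S]

end Pool.Agent.Results.MP_b8aaf5_co.TwelvePiles
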